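import Pool.Agent.H.MP_a981ee_lc.Defs

namespace Pool.Agent.H.MP_a981ee_lc

open Relation Tm

theorem step_mono {E E' : Tm → Tm → Prop} (h : ∀ a b, E a b → E' a b) {a b : Tm}
    (s : Step E a b) : Step E' a b := by
  induction s with
  | rule1 x => exact .rule1 x
  | rule2 x y => exact .rule2 x y
  | rule3 x y z => exact .rule3 x y z
  | rule4 x y => exact .rule4 x y
  | rule5 x y => exact .rule5 x y
  | rule6 x y e => exact .rule6 x y (h _ _ e)
  | rule7 x y e => exact .rule7 x y (h _ _ e)
  | left a a' b _ ih => exact .left a a' b ih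
  | right a b b' _ ih => exact .right a b b' ih

theorem lev_succ : ∀ n a b, lev n a b → lev (n + 1) a b := by
  intro n
  induction n with
  | zero => intro a b h; exact h.elim
  | succ n ih =>
    intro a b h
    exact step_mono (fun a b e => EqvGen.mono ih _ _ e) h

theorem lev_mono {m n : ℕ} (h : m ≤ n) : ∀ a b, lev m a b → lev n a b := by
  induction h with
  | refl => exact fun _ _ h => h
  | step _ ih => exact fun a b h => lev_succ _ a b (ih a b h)

def Q (a b : Tm) : Prop := EqvGen R a b

theorem Q.refl (a : Tm) : Q a a := EqvGen.refl a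
theorem Q.symm {a b : Tm} (h : Q a b) : Q b a := EqvGen.symm _ _ h
theorem Q.trans {a b c : Tm} (h : Q a b) (h' : Q b c) : Q a c := EqvGen.trans _ _ _ h h'

theorem Q_lev {a b : Tm} (h : Q a b) : ∃ n, EqvGen (lev n) a b := by
  induction h with
  | rel a b h => obtain ⟨n, h⟩ := h; exact ⟨n, EqvGen.rel _ _ h⟩
  | refl a => exact ⟨0, EqvGen.refl a⟩
  | symm a b _ ih => obtain ⟨n, h⟩ := ih; exact ⟨n, EqvGen.symm _ _ h⟩
  | trans a b c _ _ ih1 ih2 =>
    obtain ⟨m, h1⟩ := ih1
    obtain ⟨n, h2⟩ := ih2
    exact ⟨max m n, EqvGen.trans _ _ _ (EqvGen.mono (lev_mono (le_max_left m n)) _ _ h1)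
      (EqvGen.mono (lev_mono (le_max_right m n)) _ _ h2)⟩

theorem R_left {a a' : Tm} (b : Tm) (h : R a a') : R (app a b) (app a' b) := by
  obtain ⟨n, h⟩ := h
  cases n with
  | zero => exact h.elim
  | succ n => exact ⟨n + 1, Step.left a a' b h⟩

theorem R_right (a : Tm) {b b' : Tm} (h : R b b') : R (app a b) (app a b') := by
  obtain ⟨n, h⟩ := h
  cases n with
  | zero => exact h.elim
  | succ n => exact ⟨n + 1, Step.right a b b' h⟩

theorem R_I (x : Tm) : R (app I x) x := ⟨1, Step.rule1 x⟩
theorem R_K (x y : Tm) : R (app (app K x) y) x := ⟨1, Step.rule2 x y⟩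
theorem R_S (x y z : Tm) : R (app (app (app S x) y) z) (app (app x z) (app y z)) :=
  ⟨1, Step.rule3 x y z⟩
theorem R_1 (x y : Tm) : R (app (P true) (app (app D x) y)) x := ⟨1, Step.rule4 x y⟩
theorem R_2 (x y : Tm) : R (app (P false) (app (app D x) y)) y := ⟨1, Step.rule5 x y⟩
theorem R_6 {x y : Tm} (h : Q x y) : R (app (app D (app (P true) x)) (app (P false) y)) x := by
  obtain ⟨n, h⟩ := Q_lev h
  exact ⟨n + 1, Step.rule6 x y h⟩

abbrev Rs := ReflTransGen R

theorem Rs_left {a a' : Tm} (b : Tm) (h : Rs a a') : Rs (app a b) (app a' b) :=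
  ReflTransGen.lift (fun x => app x b) (fun _ _ h => R_left b h) _ _ h

theorem Rs_right (a : Tm) {b b' : Tm} (h : Rs b b') : Rs (app a b) (app a b') :=
  ReflTransGen.lift (fun x => app a x) (fun _ _ h => R_right a h) _ _ h

theorem Rs_app {a a' b b' : Tm} (h : Rs a a') (h' : Rs b b') : Rs (app a b) (app a' b') :=
  (Rs_left b h).trans (Rs_right a' h')

theorem Rs_Q {a b : Tm} (h : Rs a b) : Q a b := by
  induction h with
  | refl => exact Q.refl _
  | tail _ h ih => exact ih.trans (EqvGen.rel _ _ h)

theorem Q_right (a : Tm) {b b' : Tm} (h : Q b b') : Q (app a b) (app a b') := by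
  induction h with
  | rel x y h => exact EqvGen.rel _ _ (R_right a h)
  | refl x => exact Q.refl _
  | symm _ _ _ ih => exact ih.symm
  | trans _ _ _ _ _ ih1 ih2 => exact ih1.trans ih2

/-- function values -/
inductive Fn : Tm → Prop
  | i : Fn I
  | k : Fn K
  | k1 (x) : Fn (app K x)
  | s : Fn S
  | s1 (x) : Fn (app S x)
  | s2 (x y) : Fn (app (app S x) y)
  | d : Fn D
  | d1 (x) : Fn (app D x)
  | p (i) : Fn (P i)

/-- values -/
inductive Vl : Tm → Prop
  | fn (f) : Fn f → Vl f
  | pr (i v) : Vl v → Vl (app (P i) v)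

/-- head steps (`true`) and evaluation to a value (`false`) -/
inductive HV : Bool → Tm → Tm → Prop
  | hI (x) : HV true (app I x) x
  | hK (x y) : HV true (app (app K x) y) x
  | hS (x y z) : HV true (app (app (app S x) y) z) (app (app x z) (app y z))
  | h1 (p q) : HV true (app (P true) (app (app D p) q)) p
  | h2 (p q) : HV true (app (P false) (app (app D p) q)) q
  | hL (a a' b) : HV true a a' → HV true (app a b) (app a' b)
  | hR (i a a') : HV true a a' → HV true (app (P i) a) (app (P i) a')
  | hA (p q w f) : Fn f → HV false (app (app D p) q) f →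
      HV true (app (app (app D p) q) w) (app f w)
  | vR (v) : Vl v → HV false v v
  | vS (b c v) : HV true b c → HV false c v → HV false b v
  | vP (p q v v') : HV false p (app (P true) v) → HV false q (app (P false) v') → Q v v' →
      Vl v → Vl v' → HV false (app (app D p) q) v

abbrev H := HV true
abbrev Val := HV false
abbrev Hs := ReflTransGen H

theorem noH_I {c : Tm} : ¬ H I c := fun h => by cases h
theorem noH_K {c : Tm} : ¬ H K c := fun h => by cases h
theorem noH_S {c : Tm} : ¬ H S c := fun h => by cases h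
theorem noH_D {c : Tm} : ¬ H D c := fun h => by cases h
theorem noH_P {i : Bool} {c : Tm} : ¬ H (P i) c := fun h => by cases h
theorem noH_K1 {x c : Tm} : ¬ H (app K x) c := fun h => by
  cases h with | hL _ _ _ h => exact noH_K h
theorem noH_S1 {x c : Tm} : ¬ H (app S x) c := fun h => by
  cases h with | hL _ _ _ h => exact noH_S h
theorem noH_D1 {x c : Tm} : ¬ H (app D x) c := fun h => by
  cases h with | hL _ _ _ h => exact noH_D h
theorem noH_S2 {x y c : Tm} : ¬ H (app (app S x) y) c := fun h => by
  cases h with | hL _ _ _ h => exact noH_S1 h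
theorem noH_pair {x y c : Tm} : ¬ H (app (app D x) y) c := fun h => by
  cases h with | hL _ _ _ h => exact noH_D1 h

theorem noH_fn {f c : Tm} (h : Fn f) : ¬ H f c := by
  cases h with
  | i => exact noH_I
  | k => exact noH_K
  | k1 => exact noH_K1
  | s => exact noH_S
  | s1 => exact noH_S1
  | s2 => exact noH_S2
  | d => exact noH_D
  | d1 => exact noH_D1
  | p => exact noH_P

theorem vl_ne_pair {p q : Tm} : ¬ Vl (app (app D p) q) := fun h => by
  cases h with | fn _ h => cases h

theorem noH_vl {v : Tm} (h : Vl v) : ∀ {c : Tm}, ¬ H v c := by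
  induction h with
  | fn f h => exact noH_fn h
  | pr i v hv ih =>
    intro c h
    cases h with
    | h1 => exact vl_ne_pair hv
    | h2 => exact vl_ne_pair hv
    | hL _ _ _ h => exact noH_P h
    | hR _ _ _ h => exact ih h

theorem val_vl {m : Bool} {b v : Tm} (h : HV m b v) : m = false → Vl v := by
  induction h with
  | vR v h => exact fun _ => h
  | vS b c v _ _ _ ih => exact ih
  | vP p q v v' _ _ _ h => exact fun _ => h
  | _ => intro h; cases h

theorem det {m : Bool} {b c : Tm} (h : HV m b c) : ∀ c', HV m b c' → c = c' := by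
  induction h with
  | hI x =>
    intro c' h
    cases h with
    | hI => rfl
    | hL _ _ _ h => exact (noH_I h).elim
  | hK x y =>
    intro c' h
    cases h with
    | hK => rfl
    | hL _ _ _ h => exact (noH_K1 h).elim
  | hS x y z =>
    intro c' h
    cases h with
    | hS => rfl
    | hL _ _ _ h => exact (noH_S2 h).elim
  | h1 p q =>
    intro c' h
    cases h with
    | h1 => rfl
    | hL _ _ _ h => exact (noH_P h).elim
    | hR _ _ _ h => exact (noH_pair h).elim
  | h2 p q =>
    intro c' h
    cases h with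
    | h2 => rfl
    | hL _ _ _ h => exact (noH_P h).elim
    | hR _ _ _ h => exact (noH_pair h).elim
  | hL a a' b h0 ih =>
    intro c' h
    cases h with
    | hI => exact (noH_I h0).elim
    | hK => exact (noH_K1 h0).elim
    | hS => exact (noH_S2 h0).elim
    | h1 => exact (noH_P h0).elim
    | h2 => exact (noH_P h0).elim
    | hL _ _ _ h => rw [ih _ h]
    | hR => exact (noH_P h0).elim
    | hA => exact (noH_pair h0).elim
  | hR i a a' h0 ih =>
    intro c' h
    cases h with
    | h1 => exact (noH_pair h0).elim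
    | h2 => exact (noH_pair h0).elim
    | hL _ _ _ h => exact (noH_P h).elim
    | hR _ _ _ h => rw [ih _ h]
  | hA p q w f _ _ ih =>
    intro c' h
    cases h with
    | hL _ _ _ h => exact (noH_pair h).elim
    | hA _ _ _ _ _ h => rw [ih _ h]
  | vR v hv =>
    intro c' h
    cases h with
    | vR => rfl
    | vS _ _ _ h => exact (noH_vl hv h).elim
    | vP => exact (vl_ne_pair hv).elim
  | vS b c v h0 _ ih1 ih2 =>
    intro c' h
    cases h with
    | vR _ hv => exact (noH_vl hv h0).elim
    | vS _ c2 _ h h' =>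
      obtain rfl := ih1 _ h
      exact ih2 _ h'
    | vP => exact (noH_pair h0).elim
  | vP p q v v' _ _ _ _ _ ih1 _ =>
    intro c' h
    cases h with
    | vR _ hv => exact (vl_ne_pair hv).elim
    | vS _ _ _ h => exact (noH_pair h).elim
    | vP _ _ _ _ h =>
      have := ih1 _ h
      cases this
      rfl

theorem hv_sound {m : Bool} {b c : Tm} (h : HV m b c) : Rs b c := by
  induction h with
  | hI x => exact .single (R_I x)
  | hK x y => exact .single (R_K x y)
  | hS x y z => exact .single (R_S x y z)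
  | h1 p q => exact .single (R_1 p q)
  | h2 p q => exact .single (R_2 p q)
  | hL a a' b _ ih => exact Rs_left b ih
  | hR i a a' _ ih => exact Rs_right _ ih
  | hA p q w f _ _ ih => exact Rs_left w ih
  | vR v => exact .refl
  | vS b c v _ _ ih1 ih2 => exact ih1.trans ih2
  | vP p q v v' _ _ e _ _ ih1 ih2 =>
    exact (Rs_app (Rs_right D ih1) ih2).trans (.single (R_6 e))

theorem hs_sound {b c : Tm} (h : Hs b c) : Rs b c := by
  induction h with
  | refl => exact .refl
  | tail _ h ih => exact ih.trans (hv_sound h)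

theorem Hs_left {a a' : Tm} (b : Tm) (h : Hs a a') : Hs (app a b) (app a' b) :=
  ReflTransGen.lift (fun x => app x b) (fun _ _ h => HV.hL _ _ b h) _ _ h

theorem Hs_proj (i : Bool) {b b' : Tm} (h : Hs b b') : Hs (app (P i) b) (app (P i) b') :=
  ReflTransGen.lift (fun x => app (P i) x) (fun _ _ h => HV.hR i _ _ h) _ _ h

theorem hs_normal {n t : Tm} (hn : ∀ c, ¬ H n c) (h : Hs n t) : t = n := by
  rcases h.cases_head with h | ⟨c, h, _⟩
  · exact h.symm
  · exact (hn c h).elim

theorem hs_step {b c t : Tm} (h : H b c) (h' : Hs b t) : t = b ∨ Hs c t := by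
  rcases h'.cases_head with h' | ⟨c', h1, h2⟩
  · exact Or.inl h'.symm
  · rw [det h _ h1]; exact Or.inr h2

theorem hs_to_normal {z n t : Tm} (hn : ∀ c, ¬ H n c) (h : Hs z n) (h' : Hs z t) : Hs t n := by
  induction h' with
  | refl => exact h
  | tail _ s ih =>
    rcases hs_step s ih with e | e
    · subst e; exact (hn _ s).elim
    · exact e

theorem val_of_hs {b c v : Tm} (h : Hs b c) (hv : Val c v) : Val b v := by
  induction h using ReflTransGen.head_induction_on with
  | refl => exact hv
  | head s _ ih => exact .vS _ _ _ s ih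

theorem val_fwd {b c v : Tm} (hv : Val b v) (h : H b c) : Val c v := by
  cases hv with
  | vR _ hv => exact (noH_vl hv h).elim
  | vS _ c' _ h1 h2 => rw [det h _ h1]; exact h2
  | vP => exact (noH_pair h).elim

theorem val_fwds {b c v : Tm} (hv : Val b v) (h : Hs b c) : Val c v := by
  induction h with
  | refl => exact hv
  | tail _ s ih => exact val_fwd ih s

theorem val_app {m : Bool} {t f : Tm} (h : HV m t f) (w : Tm) :
    m = false → Fn f → Hs (app t w) (app f w) := by
  induction h with
  | vR v => exact fun _ _ => .refl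
  | vS b c v s _ _ ih => exact fun e hf => .head (.hL _ _ _ s) (ih e hf)
  | vP p q v v' h1 h2 e hv hv' => exact fun _ hf => .single (.hA _ _ _ _ hf (.vP _ _ _ _ h1 h2 e hv hv'))
  | _ => intro h; cases h

theorem val_proj {m : Bool} {z v : Tm} (h : HV m z v) : m = false →
    Val (app (P true) z) (app (P true) v) ∧
      ∃ v', Vl v' ∧ Q v v' ∧ Val (app (P false) z) (app (P false) v') := by
  induction h with
  | vR v hv => exact fun _ => ⟨.vR _ (.pr _ _ hv), v, hv, Q.refl _, .vR _ (.pr _ _ hv)⟩
  | vS b c v s _ _ ih =>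
    intro e
    obtain ⟨h1, v', hv', q, h2⟩ := ih e
    exact ⟨.vS _ _ _ (.hR _ _ _ s) h1, v', hv', q, .vS _ _ _ (.hR _ _ _ s) h2⟩
  | vP p q v v' h1 h2 e hv hv' =>
    exact fun _ => ⟨.vS _ _ _ (.h1 _ _) h1, v', hv', e, .vS _ _ _ (.h2 _ _) h2⟩
  | _ => intro h; cases h

theorem val_node {z v : Tm} (h : Val z v) :
    Val (app (app D (app (P true) z)) (app (P false) z)) v := by
  obtain ⟨h1, v', hv', q, h2⟩ := val_proj h rfl
  exact .vP _ _ _ _ h1 h2 q (val_vl h rfl) hv'

theorem val_proj_inv {m : Bool} {b t : Tm} (h : HV m b t) : m = false → ∀ i z v,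
    b = app (P i) z → t = app (P i) v →
    Hs z v ∨ ∃ z1 z2, Hs z (app (app D z1) z2) ∧ Val (cond i z1 z2) t := by
  induction h with
  | vR v hv =>
    intro _ i z v e1 e2
    rw [e1] at e2
    cases e2
    exact Or.inl .refl
  | vS b c t s h2 _ ih =>
    intro e i z v e1 e2
    subst e1
    cases s with
    | h1 => exact Or.inr ⟨_, _, .refl, h2⟩
    | h2 => exact Or.inr ⟨_, _, .refl, h2⟩
    | hL _ _ _ h => exact (noH_P h).elim
    | hR _ _ z' h =>
      rcases ih e i z' v rfl e2 with h' | ⟨z1, z2, h', h''⟩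
      · exact Or.inl (.head h h')
      · exact Or.inr ⟨z1, z2, .head h h', h''⟩
  | vP p q v v' h1 h2 e hv hv' => intro _ i z v e1; cases e1
  | _ => intro h; cases h

theorem val_node_inv {z v v' : Tm} (h1 : Val (app (P true) z) (app (P true) v))
    (h2 : Val (app (P false) z) (app (P false) v')) (q : Q v v') (hv : Vl v) (hv' : Vl v') :
    Val z v := by
  rcases val_proj_inv h1 rfl _ _ _ rfl rfl with a | ⟨z1, z2, a, a'⟩
  · exact val_of_hs a (.vR _ hv)
  · rcases val_proj_inv h2 rfl _ _ _ rfl rfl with b | ⟨y1, y2, b, b'⟩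
    · have := hs_normal (fun _ => noH_pair) (hs_to_normal (fun _ => noH_vl hv') b a)
      rw [this] at hv'
      exact (vl_ne_pair hv').elim
    · have := hs_normal (fun _ => noH_pair) (hs_to_normal (fun _ => noH_pair) b a)
      cases this
      exact val_of_hs a (.vP _ _ _ _ a' b' q hv hv')

end Pool.Agent.H.MP_a981ee_lc
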