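import Pool.Agent.H.MP_a981ee_lc.A

namespace Pool.Agent.H.MP_a981ee_lc

open Relation Tm

/-- generalised parallel pure steps -/
inductive Pr : Tm → Tm → Prop
  | hs (a b) : Hs a b → Pr a b
  | node (z z1) : Hs z z1 → Pr (app (app D (app (P true) z)) (app (P false) z)) z1
  | app (a a' b b') : Pr a a' → Pr b b' → Pr (app a b) (app a' b')

theorem Pr.refl (a : Tm) : Pr a a := .hs _ _ .refl

theorem pr_sound {a b : Tm} (h : Pr a b) : Rs a b := by
  induction h with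
  | hs a b h => exact hs_sound h
  | node z z1 h => exact .head (R_6 (Q.refl z)) (hs_sound h)
  | app a a' b b' _ _ ih1 ih2 => exact Rs_app ih1 ih2

theorem pr_Q {a b : Tm} (h : Pr a b) : Q a b := Rs_Q (pr_sound h)

theorem pr_I {t : Tm} (h : Pr I t) : t = I := by
  cases h with | hs _ _ h => exact hs_normal (fun _ => noH_I) h
theorem pr_K {t : Tm} (h : Pr K t) : t = K := by
  cases h with | hs _ _ h => exact hs_normal (fun _ => noH_K) h
theorem pr_S {t : Tm} (h : Pr S t) : t = S := by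
  cases h with | hs _ _ h => exact hs_normal (fun _ => noH_S) h
theorem pr_D {t : Tm} (h : Pr D t) : t = D := by
  cases h with | hs _ _ h => exact hs_normal (fun _ => noH_D) h
theorem pr_P {i : Bool} {t : Tm} (h : Pr (P i) t) : t = P i := by
  cases h with | hs _ _ h => exact hs_normal (fun _ => noH_P) h

theorem pr_K1 {x t : Tm} (h : Pr (app K x) t) : ∃ x', t = app K x' ∧ Pr x x' := by
  cases h with
  | hs _ _ h => exact ⟨x, hs_normal (fun _ => noH_K1) h, .refl x⟩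
  | app _ a' _ b' h1 h2 => exact ⟨b', by rw [pr_K h1], h2⟩
theorem pr_S1 {x t : Tm} (h : Pr (app S x) t) : ∃ x', t = app S x' ∧ Pr x x' := by
  cases h with
  | hs _ _ h => exact ⟨x, hs_normal (fun _ => noH_S1) h, .refl x⟩
  | app _ a' _ b' h1 h2 => exact ⟨b', by rw [pr_S h1], h2⟩
theorem pr_D1 {x t : Tm} (h : Pr (app D x) t) : ∃ x', t = app D x' ∧ Pr x x' := by
  cases h with
  | hs _ _ h => exact ⟨x, hs_normal (fun _ => noH_D1) h, .refl x⟩
  | app _ a' _ b' h1 h2 => exact ⟨b', by rw [pr_D h1], h2⟩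
theorem pr_S2 {x y t : Tm} (h : Pr (app (app S x) y) t) :
    ∃ x' y', t = app (app S x') y' ∧ Pr x x' ∧ Pr y y' := by
  cases h with
  | hs _ _ h => exact ⟨x, y, hs_normal (fun _ => noH_S2) h, .refl x, .refl y⟩
  | app _ a' _ b' h1 h2 =>
    obtain ⟨x', rfl, hx⟩ := pr_S1 h1
    exact ⟨x', b', rfl, hx, h2⟩

theorem pr_pair {p q t : Tm} (h : Pr (app (app D p) q) t) :
    (∃ p' q', t = app (app D p') q' ∧ Pr p p' ∧ Pr q q') ∨
      ∃ z, p = app (P true) z ∧ q = app (P false) z ∧ Hs z t := by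
  cases h with
  | hs _ _ h => exact Or.inl ⟨p, q, hs_normal (fun _ => noH_pair) h, .refl p, .refl q⟩
  | node z _ h => exact Or.inr ⟨z, rfl, rfl, h⟩
  | app _ a' _ b' h1 h2 =>
    obtain ⟨x', rfl, hx⟩ := pr_D1 h1
    exact Or.inl ⟨x', b', rfl, hx, h2⟩

theorem pr_fn {f t : Tm} (hf : Fn f) (h : Pr f t) : Fn t := by
  cases hf with
  | i => rw [pr_I h]; exact .i
  | k => rw [pr_K h]; exact .k
  | k1 => obtain ⟨x', rfl, _⟩ := pr_K1 h; exact .k1 _
  | s => rw [pr_S h]; exact .s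
  | s1 => obtain ⟨x', rfl, _⟩ := pr_S1 h; exact .s1 _
  | s2 => obtain ⟨x', y', rfl, _⟩ := pr_S2 h; exact .s2 _ _
  | d => rw [pr_D h]; exact .d
  | d1 => obtain ⟨x', rfl, _⟩ := pr_D1 h; exact .d1 _
  | p => rw [pr_P h]; exact .p _

theorem pr_projv {i : Bool} {v t : Tm} (hv : Vl v) (h : Pr (app (P i) v) t) :
    ∃ v', t = app (P i) v' ∧ Pr v v' := by
  cases h with
  | hs _ _ h => exact ⟨v, hs_normal (fun _ => noH_vl (.pr i v hv)) h, .refl v⟩
  | app _ a' _ b' h1 h2 => exact ⟨b', by rw [pr_P h1], h2⟩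

theorem pr_vl {v : Tm} (hv : Vl v) : ∀ {t : Tm}, Pr v t → Vl t := by
  induction hv with
  | fn f hf => exact fun h => .fn _ (pr_fn hf h)
  | pr i v hv ih =>
    intro t h
    obtain ⟨v', rfl, h'⟩ := pr_projv hv h
    exact .pr _ _ (ih h')

theorem fwd_hs {b c b' : Tm} (s : H b c) (h : Hs b b') : ∃ c', Hs b' c' ∧ Pr c c' := by
  rcases hs_step s h with e | e
  · subst e; exact ⟨c, .single s, .refl c⟩
  · exact ⟨b', .refl, .hs _ _ e⟩

theorem fwd_comm {m : Bool} {b c : Tm} (h : HV m b c) : ∀ b', Pr b b' →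
    ∃ c', Pr c c' ∧ (m = true → Hs b' c') ∧ (m = false → Val b' c') := by
  have key : ∀ {b c b' : Tm}, H b c → Hs b b' →
      ∃ c', Pr c c' ∧ (true = true → Hs b' c') ∧ (true = false → Val b' c') := by
    intro b c b' s h
    obtain ⟨c', h1, h2⟩ := fwd_hs s h
    exact ⟨c', h2, fun _ => h1, fun e => by cases e⟩
  have mk : ∀ {c b' : Tm} (c' : Tm), Pr c c' → Hs b' c' →
      ∃ c', Pr c c' ∧ (true = true → Hs b' c') ∧ (true = false → Val b' c') :=
    fun c' h1 h2 => ⟨c', h1, fun _ => h2, fun e => by cases e⟩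
  have mk' : ∀ {c b' : Tm} (c' : Tm), Pr c c' → Val b' c' →
      ∃ c', Pr c c' ∧ (false = true → Hs b' c') ∧ (false = false → Val b' c') :=
    fun c' h1 h2 => ⟨c', h1, fun e => (by cases e), fun _ => h2⟩
  induction h with
  | hI x =>
    intro b' p
    cases p with
    | hs _ _ p => exact key (.hI x) p
    | app _ a' _ x' p1 p2 =>
      obtain rfl := pr_I p1
      exact mk x' p2 (.single (.hI _))
  | hK x y =>
    intro b' p
    cases p with
    | hs _ _ p => exact key (.hK x y) p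
    | app _ a' _ y' p1 p2 =>
      obtain ⟨x', rfl, px⟩ := pr_K1 p1
      exact mk x' px (.single (.hK _ _))
  | hS x y z =>
    intro b' p
    cases p with
    | hs _ _ p => exact key (.hS x y z) p
    | app _ a' _ z' p1 p2 =>
      obtain ⟨x', y', rfl, px, py⟩ := pr_S2 p1
      exact mk _ (.app _ _ _ _ (.app _ _ _ _ px p2) (.app _ _ _ _ py p2)) (.single (.hS _ _ _))
  | h1 x y =>
    intro b' p
    cases p with
    | hs _ _ p => exact key (.h1 x y) p
    | app _ a' _ t p1 p2 =>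
      obtain rfl := pr_P p1
      rcases pr_pair p2 with ⟨x', y', rfl, px, _⟩ | ⟨z, rfl, rfl, hz⟩
      · exact mk x' px (.single (.h1 _ _))
      · exact mk _ (.hs _ _ (Hs_proj _ hz)) .refl
  | h2 x y =>
    intro b' p
    cases p with
    | hs _ _ p => exact key (.h2 x y) p
    | app _ a' _ t p1 p2 =>
      obtain rfl := pr_P p1
      rcases pr_pair p2 with ⟨x', y', rfl, _, py⟩ | ⟨z, rfl, rfl, hz⟩
      · exact mk y' py (.single (.h2 _ _))
      · exact mk _ (.hs _ _ (Hs_proj _ hz)) .refl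
  | hL a a1 b s ih =>
    intro b' p
    cases p with
    | hs _ _ p => exact key (.hL _ _ _ s) p
    | node => exact (noH_D1 s).elim
    | app _ a' _ t p1 p2 =>
      obtain ⟨c', q1, q2, _⟩ := ih _ p1
      exact mk _ (.app _ _ _ _ q1 p2) (Hs_left _ (q2 rfl))
  | hR i a a1 s ih =>
    intro b' p
    cases p with
    | hs _ _ p => exact key (.hR _ _ _ s) p
    | app _ a' _ t p1 p2 =>
      obtain rfl := pr_P p1
      obtain ⟨c', q1, q2, _⟩ := ih _ p2
      exact mk _ (.app _ _ _ _ (.refl _) q1) (Hs_proj _ (q2 rfl))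
  | hA x y w f hf s ih =>
    intro b' p
    cases p with
    | hs _ _ p => exact key (.hA _ _ _ _ hf s) p
    | app _ a' _ t p1 p2 =>
      obtain ⟨c', q1, _, q2⟩ := ih _ p1
      exact mk _ (.app _ _ _ _ q1 p2) (val_app (q2 rfl) _ rfl (pr_fn hf q1))
  | vR v hv =>
    intro b' p
    exact mk' _ p (.vR _ (pr_vl hv p))
  | vS b c v s _ ih1 ih2 =>
    intro b' p
    obtain ⟨c', q1, q2, _⟩ := ih1 _ p
    obtain ⟨v', r1, _, r2⟩ := ih2 _ q1
    exact mk' _ r1 (val_of_hs (q2 rfl) (r2 rfl))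
  | vP x y v v' s1 s2 e hv hv' ih1 ih2 =>
    intro b' p
    rcases pr_pair p with ⟨x', y', rfl, px, py⟩ | ⟨z, rfl, rfl, hz⟩
    · obtain ⟨t1, q1, _, q2⟩ := ih1 _ px
      obtain ⟨t2, r1, _, r2⟩ := ih2 _ py
      obtain ⟨v1, rfl, pv1⟩ := pr_projv hv q1
      obtain ⟨v2, rfl, pv2⟩ := pr_projv hv' r1
      exact mk' _ pv1 (.vP _ _ _ _ (q2 rfl) (r2 rfl)
        (((pr_Q pv1).symm.trans e).trans (pr_Q pv2)) (pr_vl hv pv1) (pr_vl hv' pv2))
    · exact mk' _ (.refl v) (val_fwds (val_node_inv s1 s2 e hv hv') hz)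

theorem fwd_comms {b c b' : Tm} (h : Hs b c) (p : Pr b b') : ∃ c', Pr c c' ∧ Hs b' c' := by
  induction h with
  | refl => exact ⟨b', p, .refl⟩
  | tail _ s ih =>
    obtain ⟨c', q1, q2⟩ := ih
    obtain ⟨d, r1, r2, _⟩ := fwd_comm s _ q1
    exact ⟨d, r1, q2.trans (r2 rfl)⟩

/-- same spine, arguments related -/
inductive Sh : Tm → Tm → Prop
  | refl (c) : Sh c c
  | app (a' a b' b) : Sh a' a → Pr b' b → Sh (app a' b') (app a b)

theorem sh_pr {a b : Tm} (h : Sh a b) : Pr a b := by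
  induction h with
  | refl c => exact .refl c
  | app a' a b' b _ p ih => exact .app _ _ _ _ ih p

theorem sh_K1 {x t : Tm} (h : Sh t (app K x)) : ∃ x', t = app K x' ∧ Pr x' x := by
  cases h with
  | refl => exact ⟨x, rfl, .refl x⟩
  | app a' _ b' _ h1 h2 => cases h1; exact ⟨b', rfl, h2⟩
theorem sh_S1 {x t : Tm} (h : Sh t (app S x)) : ∃ x', t = app S x' ∧ Pr x' x := by
  cases h with
  | refl => exact ⟨x, rfl, .refl x⟩
  | app a' _ b' _ h1 h2 => cases h1; exact ⟨b', rfl, h2⟩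
theorem sh_D1 {x t : Tm} (h : Sh t (app D x)) : ∃ x', t = app D x' ∧ Pr x' x := by
  cases h with
  | refl => exact ⟨x, rfl, .refl x⟩
  | app a' _ b' _ h1 h2 => cases h1; exact ⟨b', rfl, h2⟩
theorem sh_S2 {x y t : Tm} (h : Sh t (app (app S x) y)) :
    ∃ x' y', t = app (app S x') y' ∧ Pr x' x ∧ Pr y' y := by
  cases h with
  | refl => exact ⟨x, y, rfl, .refl x, .refl y⟩
  | app a' _ b' _ h1 h2 =>
    obtain ⟨x', rfl, hx⟩ := sh_S1 h1
    exact ⟨x', b', rfl, hx, h2⟩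

theorem sh_fn {f t : Tm} (hf : Fn f) (h : Sh t f) : Fn t := by
  cases hf with
  | i => cases h; exact .i
  | k => cases h; exact .k
  | k1 => obtain ⟨x', rfl, _⟩ := sh_K1 h; exact .k1 _
  | s => cases h; exact .s
  | s1 => obtain ⟨x', rfl, _⟩ := sh_S1 h; exact .s1 _
  | s2 => obtain ⟨x', y', rfl, _⟩ := sh_S2 h; exact .s2 _ _
  | d => cases h; exact .d
  | d1 => obtain ⟨x', rfl, _⟩ := sh_D1 h; exact .d1 _
  | p => cases h; exact .p _

/-- the relation between values produced by backward commutation -/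
inductive Rel : Tm → Tm → Prop
  | fn (f' f) : Fn f → Sh f' f → Rel f' f
  | p1 (a' a) : Rel a' a → Vl a' → Rel (app (P true) a') (app (P true) a)
  | p2 (a' a) : Q a' a → Vl a' → Rel (app (P false) a') (app (P false) a)

theorem rel_refl {v : Tm} (hv : Vl v) : Rel v v := by
  induction hv with
  | fn f hf => exact .fn _ _ hf (.refl f)
  | pr i v hv ih =>
    cases i with
    | true => exact .p1 _ _ ih hv
    | false => exact .p2 _ _ (Q.refl v) hv

theorem rel_Q {a b : Tm} (h : Rel a b) : Q a b := by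
  induction h with
  | fn f' f _ h => exact pr_Q (sh_pr h)
  | p1 a' a _ _ ih => exact Q_right _ ih
  | p2 a' a q _ => exact Q_right _ q

theorem rel_fn {t f : Tm} (hf : Fn f) (h : Rel t f) : Sh t f := by
  cases h with
  | fn _ _ _ h => exact h
  | p1 => cases hf
  | p2 => cases hf

theorem rel_p1 {t a : Tm} (h : Rel t (app (P true) a)) :
    ∃ a', t = app (P true) a' ∧ Rel a' a ∧ Vl a' := by
  cases h with
  | fn _ _ hf => cases hf
  | p1 a' _ h hv => exact ⟨a', rfl, h, hv⟩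

theorem rel_p2 {t a : Tm} (h : Rel t (app (P false) a)) :
    ∃ a', t = app (P false) a' ∧ Q a' a ∧ Vl a' := by
  cases h with
  | fn _ _ hf => cases hf
  | p2 a' _ h hv => exact ⟨a', rfl, h, hv⟩

theorem fn_left {a b : Tm} (h : Fn (app a b)) : Fn a := by
  cases h with
  | k1 => exact .k
  | s1 => exact .s
  | s2 => exact .s1 _
  | d1 => exact .d

theorem pv {b v : Tm} (p : Pr b v) : Vl v → ∃ v', Val b v' ∧ Rel v' v := by
  induction p with
  | hs a b h => exact fun hv => ⟨b, val_of_hs h (.vR _ hv), rel_refl hv⟩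
  | node z z1 h => exact fun hv => ⟨z1, val_node (val_of_hs h (.vR _ hv)), rel_refl hv⟩
  | app a' a b' b p1 p2 ih1 ih2 =>
    intro hv
    cases hv with
    | fn _ hf =>
      obtain ⟨f', e1, e2⟩ := ih1 (.fn _ (fn_left hf))
      have s := rel_fn (fn_left hf) e2
      have s2 : Sh (app f' b') (app a b) := .app _ _ _ _ s p2
      exact ⟨app f' b', val_of_hs (val_app e1 _ rfl (sh_fn (fn_left hf) s))
        (.vR _ (.fn _ (sh_fn hf s2))), .fn _ _ hf s2⟩
    | pr i _ hv =>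
      obtain ⟨f', e1, e2⟩ := ih1 (.fn _ (.p i))
      have s := rel_fn (.p i) e2
      cases s
      obtain ⟨v', e3, e4⟩ := ih2 hv
      obtain ⟨g1, v'', hv'', q, g2⟩ := val_proj e3 rfl
      have hh := val_app e1 b' rfl (.p i)
      cases i with
      | true => exact ⟨_, val_of_hs hh g1, .p1 _ _ e4 (val_vl e3 rfl)⟩
      | false => exact ⟨_, val_of_hs hh g2, .p2 _ _ (q.symm.trans (rel_Q e4)) hv''⟩

theorem pv_fn {b f : Tm} (p : Pr b f) (hf : Fn f) (w : Tm) :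
    ∃ f', Sh f' f ∧ Hs (app b w) (app f' w) := by
  obtain ⟨f', e1, e2⟩ := pv p (.fn _ hf)
  have s := rel_fn hf e2
  exact ⟨f', s, val_app e1 w rfl (sh_fn hf s)⟩

theorem pv_P {b : Tm} {i : Bool} (p : Pr b (P i)) (w : Tm) : Hs (app b w) (app (P i) w) := by
  obtain ⟨f', s, h⟩ := pv_fn p (.p i) w
  cases s
  exact h

theorem pr_pair_bwd {t p q : Tm} (h : Pr t (app (app D p) q)) :
    (∃ p' q', Hs t (app (app D p') q') ∧ Pr p' p ∧ Pr q' q) ∨
      ∃ z, t = app (app D (app (P true) z)) (app (P false) z) ∧ Hs z (app (app D p) q) := by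
  generalize e : app (app D p) q = u at h
  cases h with
  | hs _ _ h => exact Or.inl ⟨p, q, e ▸ h, .refl p, .refl q⟩
  | node z _ h => exact Or.inr ⟨z, rfl, h⟩
  | app d d' q' q'' h1 h2 =>
    cases e
    obtain ⟨f', s, h⟩ := pv_fn h1 (.d1 p) q'
    obtain ⟨p', rfl, hp⟩ := sh_D1 s
    exact Or.inl ⟨p', q', h, hp, h2⟩

theorem pr_cases {t a b : Tm} (h : Pr t (app a b)) :
    Hs t (app a b) ∨ (∃ z, t = app (app D (app (P true) z)) (app (P false) z) ∧ Hs z (app a b)) ∨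
      ∃ a' b', t = app a' b' ∧ Pr a' a ∧ Pr b' b := by
  generalize e : app a b = u at h
  cases h with
  | hs _ _ h => exact Or.inl h
  | node z _ h => exact Or.inr (Or.inl ⟨z, rfl, h⟩)
  | app d d' q' q'' h1 h2 =>
    cases e
    exact Or.inr (Or.inr ⟨_, _, rfl, h1, h2⟩)

theorem bwd_comm {m : Bool} {b c : Tm} (h : HV m b c) : ∀ b', Pr b' b →
    (m = true → ∃ c', Hs b' c' ∧ Pr c' c) ∧ (m = false → ∃ c', Val b' c' ∧ Rel c' c) := by
  have key : ∀ {a b c : Tm}, H (app a b) c →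
      (∀ a' b', Pr a' a → Pr b' b → ∃ c', Hs (app a' b') c' ∧ Pr c' c) → ∀ t, Pr t (app a b) →
      (true = true → ∃ c', Hs t c' ∧ Pr c' c) ∧ (true = false → ∃ c', Val t c' ∧ Rel c' c) := by
    intro a b c s hk t p
    refine ⟨fun _ => ?_, fun e => by cases e⟩
    rcases pr_cases p with h | ⟨z, rfl, h⟩ | ⟨a', b', rfl, p1, p2⟩
    · exact ⟨t, .refl, .hs _ _ (h.tail s)⟩
    · exact ⟨_, .refl, .node _ _ (h.tail s)⟩
    · exact hk a' b' p1 p2
  induction h with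
  | hI x =>
    refine key (.hI x) fun a' b' p1 p2 => ?_
    obtain ⟨f', s, h⟩ := pv_fn p1 .i b'
    cases s
    exact ⟨b', h.tail (.hI _), p2⟩
  | hK x y =>
    refine key (.hK x y) fun a' b' p1 p2 => ?_
    obtain ⟨f', s, h⟩ := pv_fn p1 (.k1 x) b'
    obtain ⟨x', rfl, px⟩ := sh_K1 s
    exact ⟨x', h.tail (.hK _ _), px⟩
  | hS x y z =>
    refine key (.hS x y z) fun a' b' p1 p2 => ?_
    obtain ⟨f', s, h⟩ := pv_fn p1 (.s2 x y) b'
    obtain ⟨x', y', rfl, px, py⟩ := sh_S2 s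
    exact ⟨_, h.tail (.hS _ _ _), .app _ _ _ _ (.app _ _ _ _ px p2) (.app _ _ _ _ py p2)⟩
  | h1 x y =>
    refine key (.h1 x y) fun a' b' p1 p2 => ?_
    have h := pv_P p1 b'
    rcases pr_pair_bwd p2 with ⟨x', y', g, px, _⟩ | ⟨z, rfl, g⟩
    · exact ⟨x', (h.trans (Hs_proj _ g)).tail (.h1 _ _), px⟩
    · exact ⟨x, ((h.tail (.h1 _ _)).trans (Hs_proj _ g)).tail (.h1 _ _), .refl x⟩
  | h2 x y =>
    refine key (.h2 x y) fun a' b' p1 p2 => ?_
    have h := pv_P p1 b'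
    rcases pr_pair_bwd p2 with ⟨x', y', g, _, py⟩ | ⟨z, rfl, g⟩
    · exact ⟨y', (h.trans (Hs_proj _ g)).tail (.h2 _ _), py⟩
    · exact ⟨y, ((h.tail (.h2 _ _)).trans (Hs_proj _ g)).tail (.h2 _ _), .refl y⟩
  | hL a a1 b s ih =>
    refine key (.hL _ _ _ s) fun a' b' p1 p2 => ?_
    obtain ⟨c', g, q⟩ := (ih _ p1).1 rfl
    exact ⟨_, Hs_left _ g, .app _ _ _ _ q p2⟩
  | hR i a a1 s ih =>
    refine key (.hR _ _ _ s) fun a' b' p1 p2 => ?_
    obtain ⟨c', g, q⟩ := (ih _ p2).1 rfl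
    exact ⟨_, (pv_P p1 b').trans (Hs_proj _ g), .app _ _ _ _ (.refl _) q⟩
  | hA x y w f hf s ih =>
    refine key (.hA _ _ _ _ hf s) fun a' b' p1 p2 => ?_
    obtain ⟨f', g, q⟩ := (ih _ p1).2 rfl
    have s := rel_fn hf q
    exact ⟨_, val_app g b' rfl (sh_fn hf s), .app _ _ _ _ (sh_pr s) p2⟩
  | vR v hv => exact fun b' p => ⟨fun e => (by cases e), fun _ => pv p hv⟩
  | vS b c v s _ ih1 ih2 =>
    intro b' p
    refine ⟨fun e => (by cases e), fun _ => ?_⟩
    obtain ⟨c', g, q⟩ := (ih1 _ p).1 rfl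
    obtain ⟨v', g', q'⟩ := (ih2 _ q).2 rfl
    exact ⟨v', val_of_hs g g', q'⟩
  | vP x y v v' s1 s2 e hv hv' ih1 ih2 =>
    intro b' p
    refine ⟨fun e => (by cases e), fun _ => ?_⟩
    rcases pr_pair_bwd p with ⟨x', y', g, px, py⟩ | ⟨z, rfl, g⟩
    · obtain ⟨t1, g1, q1⟩ := (ih1 _ px).2 rfl
      obtain ⟨t2, g2, q2⟩ := (ih2 _ py).2 rfl
      obtain ⟨v1, rfl, r1, w1⟩ := rel_p1 q1
      obtain ⟨v2, rfl, r2, w2⟩ := rel_p2 q2
      exact ⟨v1, val_of_hs g (.vP _ _ _ _ g1 g2 (((rel_Q r1).trans e).trans r2.symm) w1 w2), r1⟩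
    · exact ⟨v, val_node (val_of_hs g (.vP _ _ _ _ s1 s2 e hv hv')), rel_refl hv⟩

theorem bwd_comms {b c b' : Tm} (h : Hs b c) (p : Pr b' b) : ∃ c', Hs b' c' ∧ Pr c' c := by
  induction h with
  | refl => exact ⟨b', .refl, p⟩
  | tail _ s ih =>
    obtain ⟨c', q1, q2⟩ := ih
    obtain ⟨d, r1, r2⟩ := (bwd_comm s _ q2).1 rfl
    exact ⟨d, q1.trans r1, r2⟩

/-- never reaches a pair by head steps -/
def NP (x : Tm) : Prop := ∀ p q, ¬ Hs x (app (app D p) q)

theorem np_hs {x y : Tm} (h : NP x) (s : Hs x y) : NP y := fun p q g => h p q (s.trans g)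

theorem np_hs_bwd {x y : Tm} (h : NP y) (s : Hs x y) : NP x :=
  fun p q g => h p q (hs_to_normal (fun _ => noH_pair) g s)

theorem np_pr {x y : Tm} (h : NP x) (p : Pr x y) : NP y := by
  intro a b g
  obtain ⟨c, g1, g2⟩ := bwd_comms g p
  rcases pr_pair_bwd g2 with ⟨x', y', g3, _⟩ | ⟨z, rfl, _⟩
  · exact h _ _ (g1.trans g3)
  · exact h _ _ g1

theorem np_vl {v : Tm} (hv : Vl v) : NP v := by
  intro p q g
  have := hs_normal (fun _ => noH_vl hv) g
  rw [← this] at hv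
  exact vl_ne_pair hv

end Pool.Agent.H.MP_a981ee_lc
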