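import Pool.Agent.H.MP_a981ee_lc.B

namespace Pool.Agent.H.MP_a981ee_lc

open Relation Tm

/-- a stack of projections applied to a term -/
def prs : List Bool → Tm → Tm
  | [], a => a
  | i :: s, a => app (P i) (prs s a)

theorem R_prs (s : List Bool) {a a' : Tm} (h : R a a') : R (prs s a) (prs s a') := by
  induction s with
  | nil => exact h
  | cons i s ih => exact R_right _ ih

theorem Rs_prs (s : List Bool) {a a' : Tm} (h : Rs a a') : Rs (prs s a) (prs s a') :=
  ReflTransGen.lift (prs s) (fun _ _ h => R_prs s h) _ _ h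

/-- strong joinability -/
inductive J : List Bool → Tm → Tm → Prop
  | atom (c) : (∀ a b, c ≠ app a b) → J [] c c
  | app (a1 a2 b1 b2) : J [] a1 b1 → J [] a2 b2 → J [] (app a1 a2) (app b1 b2)
  | lft (s a a' b) : R a a' → J s a' b → J s a b
  | hd (s a b b') : H b b' → J s a b' → J s a b
  | strip (i s a x) : J s a x → NP x → J (i :: s) a (app (P i) x)
  | sp (s a p q) : J (true :: s) a p → J (false :: s) a q → J s a (app (app D p) q)

theorem J_refl (a : Tm) : J [] a a := by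
  induction a with
  | app a b ih1 ih2 => exact .app _ _ _ _ ih1 ih2
  | _ => exact .atom _ (fun _ _ h => by cases h)

theorem J_lfts {s : List Bool} {a a' b : Tm} (h : Rs a a') (j : J s a' b) : J s a b := by
  induction h using ReflTransGen.head_induction_on with
  | refl => exact j
  | head r _ ih => exact .lft _ _ _ _ r ih

theorem J_hds {s : List Bool} {a b b' : Tm} (h : Hs b b') (j : J s a b') : J s a b := by
  induction h using ReflTransGen.head_induction_on with
  | refl => exact j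
  | head r _ ih => exact .hd _ _ _ _ r ih

theorem J_sound {s : List Bool} {a b : Tm} (j : J s a b) : ∃ a', Rs a a' ∧ Rs b (prs s a') := by
  induction j with
  | atom c => exact ⟨c, .refl, .refl⟩
  | app a1 a2 b1 b2 _ _ ih1 ih2 =>
    obtain ⟨c1, h1, g1⟩ := ih1
    obtain ⟨c2, h2, g2⟩ := ih2
    exact ⟨app c1 c2, Rs_app h1 h2, Rs_app g1 g2⟩
  | lft s a a' b r _ ih =>
    obtain ⟨c, h, g⟩ := ih
    exact ⟨c, .head r h, g⟩
  | hd s a b b' r _ ih =>
    obtain ⟨c, h, g⟩ := ih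
    exact ⟨c, h, (hv_sound r).trans g⟩
  | strip i s a x _ _ ih =>
    obtain ⟨c, h, g⟩ := ih
    exact ⟨c, h, Rs_right _ g⟩
  | sp s a p q _ _ ih1 ih2 =>
    obtain ⟨c1, h1, g1⟩ := ih1
    obtain ⟨c2, h2, g2⟩ := ih2
    refine ⟨c1, h1, (Rs_app (Rs_right D g1) g2).tail (R_6 ?_)⟩
    exact (Rs_Q (Rs_prs s h1)).symm.trans (Rs_Q (Rs_prs s h2))

theorem J_Q {a b : Tm} (j : J [] a b) : Q a b := by
  obtain ⟨c, h, g⟩ := J_sound j
  exact (Rs_Q h).trans (Rs_Q g).symm

theorem J_intern {u : List Bool} {a b : Tm} (j : J u a b) :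
    ∀ t s, u = t ++ s → J t (prs s a) b := by
  induction j with
  | atom c h =>
    intro t s e
    obtain ⟨rfl, rfl⟩ := List.append_eq_nil_iff.1 e.symm
    exact .atom c h
  | app a1 a2 b1 b2 h1 h2 =>
    intro t s e
    obtain ⟨rfl, rfl⟩ := List.append_eq_nil_iff.1 e.symm
    exact .app _ _ _ _ h1 h2
  | lft s0 a a' b r _ ih => exact fun t s e => .lft _ _ _ _ (R_prs s r) (ih t s e)
  | hd s0 a b b' r _ ih => exact fun t s e => .hd _ _ _ _ r (ih t s e)
  | strip i s0 a x _ np ih =>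
    intro t s e
    cases t with
    | nil =>
      cases e
      exact .app _ _ _ _ (J_refl _) (ih [] s0 rfl)
    | cons i' t =>
      cases e
      exact .strip _ _ _ _ (ih t s rfl) np
  | sp s0 a p q _ _ ih1 ih2 =>
    intro t s e
    subst e
    exact .sp _ _ _ _ (ih1 (true :: t) s rfl) (ih2 (false :: t) s rfl)

theorem J_intern1 {i : Bool} {a b : Tm} (j : J [i] a b) : J [] (app (P i) a) b :=
  J_intern j [] [i] rfl

theorem inv_atom {s : List Bool} {a c : Tm} (j : J s a c) : (∀ x y, c ≠ app x y) → Rs a c := by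
  induction j with
  | atom c => exact fun _ => .refl
  | app a1 a2 b1 b2 => exact fun h => (h _ _ rfl).elim
  | lft s a a' b r _ ih => exact fun h => .head r (ih h)
  | hd s a b b' r =>
    intro h
    cases r <;> exact (h _ _ rfl).elim
  | strip => exact fun h => (h _ _ rfl).elim
  | sp => exact fun h => (h _ _ rfl).elim

/-- general inversion on a head normal application -/
theorem inv_app {s : List Bool} {a b : Tm} (j : J s a b) : ∀ b1 b2, b = app b1 b2 →
    (∀ c, ¬ H b c) →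
    (s = [] ∧ ∃ a1 a2, Rs a (app a1 a2) ∧ J [] a1 b1 ∧ J [] a2 b2) ∨
    (∃ i s', s = i :: s' ∧ b1 = P i ∧ J s' a b2) ∨
    (∃ p, b1 = app D p ∧ J (true :: s) a p ∧ J (false :: s) a b2) := by
  induction j with
  | atom c h => exact fun _ _ e => (h _ _ e).elim
  | app a1 a2 b1 b2 h1 h2 =>
    intro _ _ e _
    cases e
    exact Or.inl ⟨rfl, a1, a2, .refl, h1, h2⟩
  | lft s a a' b r _ ih =>
    intro b1 b2 e hn
    rcases ih b1 b2 e hn with ⟨e1, a1, a2, h, h1, h2⟩ | ⟨i, s', e1, e2, h⟩ | ⟨p, e1, h1, h2⟩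
    · exact Or.inl ⟨e1, a1, a2, .head r h, h1, h2⟩
    · exact Or.inr (Or.inl ⟨i, s', e1, e2, .lft _ _ _ _ r h⟩)
    · exact Or.inr (Or.inr ⟨p, e1, .lft _ _ _ _ r h1, .lft _ _ _ _ r h2⟩)
  | hd s a b b' r => exact fun _ _ _ hn => (hn _ r).elim
  | strip i s a x h =>
    intro _ _ e _
    cases e
    exact Or.inr (Or.inl ⟨i, s, rfl, rfl, h⟩)
  | sp s a p q h1 h2 =>
    intro _ _ e _
    cases e
    exact Or.inr (Or.inr ⟨p, rfl, h1, h2⟩)

theorem inv_c1 {a c x : Tm} (hc : ∀ x y, c ≠ app x y) (hn : ∀ t, ¬ H (app c x) t)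
    (j : J [] a (app c x)) : ∃ u, Rs a (app c u) ∧ J [] u x := by
  rcases inv_app j c x rfl hn with ⟨_, a1, a2, h, h1, h2⟩ | ⟨i, s', e1, _⟩ | ⟨p, e1, _⟩
  · exact ⟨a2, h.trans (Rs_left _ (inv_atom h1 hc)), h2⟩
  · cases e1
  · exact (hc _ _ e1).elim

theorem inv_S2 {a x y : Tm} (j : J [] a (app (app S x) y)) :
    ∃ u w, Rs a (app (app S u) w) ∧ J [] u x ∧ J [] w y := by
  rcases inv_app j _ _ rfl (fun _ => noH_S2) with
    ⟨_, a1, a2, h, h1, h2⟩ | ⟨i, s', e1, _⟩ | ⟨p, e1, _⟩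
  · obtain ⟨u, g, g1⟩ := inv_c1 (fun _ _ h => by cases h) (fun _ => noH_S1) h1
    exact ⟨u, a2, h.trans (Rs_left _ g), g1, h2⟩
  · cases e1
  · cases e1

theorem inv_pair {s : List Bool} {a p q : Tm} (j : J s a (app (app D p) q)) :
    (s = [] ∧ ∃ u w, Rs a (app (app D u) w) ∧ J [] u p ∧ J [] w q) ∨
      (J (true :: s) a p ∧ J (false :: s) a q) := by
  rcases inv_app j _ _ rfl (fun _ => noH_pair) with
    ⟨e, a1, a2, h, h1, h2⟩ | ⟨i, s', _, e1, _⟩ | ⟨p, e1, h1, h2⟩
  · obtain ⟨u, g, g1⟩ := inv_c1 (fun _ _ h => by cases h) (fun _ => noH_D1) h1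
    exact Or.inl ⟨e, u, a2, h.trans (Rs_left _ g), g1, h2⟩
  · cases e1
  · cases e1
    exact Or.inr ⟨h1, h2⟩

/-- inversion on a projection of a term that never reaches a pair -/
theorem inv_proj {s : List Bool} {a b : Tm} (j : J s a b) : ∀ i z, b = app (P i) z → NP z →
    (s = [] ∧ ∃ u, Rs a (app (P i) u) ∧ J [] u z) ∨ (∃ i' s', s = i' :: s' ∧ J s' a z) := by
  induction j with
  | atom c h => exact fun _ _ e => (h _ _ e).elim
  | app a1 a2 b1 b2 h1 h2 =>
    intro i z e _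
    cases e
    exact Or.inl ⟨rfl, a2, Rs_left _ (inv_atom h1 (fun _ _ h => by cases h)), h2⟩
  | lft s a a' b r _ ih =>
    intro i z e np
    rcases ih i z e np with ⟨e1, u, h, h1⟩ | ⟨i', s', e1, h⟩
    · exact Or.inl ⟨e1, u, .head r h, h1⟩
    · exact Or.inr ⟨i', s', e1, .lft _ _ _ _ r h⟩
  | hd s a b b' r _ ih =>
    intro i z e np
    subst e
    cases r with
    | h1 => exact (np _ _ .refl).elim
    | h2 => exact (np _ _ .refl).elim
    | hL _ _ _ h => exact (noH_P h).elim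
    | hR _ _ z' h =>
      rcases ih i z' rfl (np_hs np (.single h)) with ⟨e1, u, g, g1⟩ | ⟨i', s', e1, g⟩
      · exact Or.inl ⟨e1, u, g, .hd _ _ _ _ h g1⟩
      · exact Or.inr ⟨i', s', e1, .hd _ _ _ _ h g⟩
  | strip i s a x h =>
    intro _ _ e _
    cases e
    exact Or.inr ⟨i, s, rfl, h⟩
  | sp s a p q h1 h2 =>
    intro _ _ e _
    cases e

theorem sp_np {s : List Bool} {a x y : Tm} (hx : NP x) (hy : NP y) (q : Q x y)
    (j : (s = [] ∧ ∃ u w, Rs a (app (app D u) w) ∧ J [] u (app (P true) x) ∧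
      J [] w (app (P false) y)) ∨ J (true :: s) a (app (P true) x)) : J s a x := by
  rcases j with ⟨rfl, u, w, h, h1, h2⟩ | h1
  · rcases inv_proj h1 _ _ rfl hx with ⟨_, u0, g, g1⟩ | ⟨_, _, e, _⟩
    · rcases inv_proj h2 _ _ rfl hy with ⟨_, w0, k, k1⟩ | ⟨_, _, e, _⟩
      · refine J_lfts ((h.trans (Rs_app (Rs_right D g) k)).tail (R_6 ?_)) g1
        exact ((J_Q g1).trans q).trans (J_Q k1).symm
      · cases e
    · cases e
  · rcases inv_proj h1 _ _ rfl hx with ⟨e, _⟩ | ⟨_, _, e, g⟩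
    · cases e
    · cases e
      exact g

theorem step_key {b1 b2 c : Tm} (r : H (app b1 b2) c)
    (happ : ∀ a1 a2, J [] a1 b1 → J [] a2 b2 → J [] (app a1 a2) c)
    (hstrip : ∀ i s a, b1 = P i → J s a b2 → NP b2 → J (i :: s) a c)
    {s : List Bool} {a b : Tm} (j : J s a b) : b = app b1 b2 → J s a c := by
  induction j with
  | atom c h => exact fun e => (h _ _ e).elim
  | app a1 a2 b1 b2 h1 h2 =>
    intro e
    cases e
    exact happ _ _ h1 h2
  | lft s a a' b r _ ih => exact fun e => .lft _ _ _ _ r (ih e)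
  | hd s a b b' r' j =>
    intro e
    subst e
    rw [det r _ r']
    exact j
  | strip i s a x h np =>
    intro e
    cases e
    exact hstrip _ _ _ rfl h np
  | sp s a p q h1 h2 =>
    intro e
    cases e
    exact (noH_pair r).elim

theorem J_hv {m : Bool} {b c : Tm} (h : HV m b c) : ∀ s a, J s a b → J s a c := by
  induction h with
  | hI x =>
    intro s a j
    refine step_key (.hI x) (fun a1 a2 h1 h2 => ?_) (fun i s a e => by cases e) j rfl
    exact J_lfts ((Rs_left _ (inv_atom h1 (fun _ _ h => by cases h))).tail (R_I _)) h2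
  | hK x y =>
    intro s a j
    refine step_key (.hK x y) (fun a1 a2 h1 h2 => ?_) (fun i s a e => by cases e) j rfl
    obtain ⟨u, g, g1⟩ := inv_c1 (fun _ _ h => by cases h) (fun _ => noH_K1) h1
    exact J_lfts ((Rs_left _ g).tail (R_K _ _)) g1
  | hS x y z =>
    intro s a j
    refine step_key (.hS x y z) (fun a1 a2 h1 h2 => ?_) (fun i s a e => by cases e) j rfl
    obtain ⟨u, w, g, g1, g2⟩ := inv_S2 h1
    exact J_lfts ((Rs_left _ g).tail (R_S _ _ _))
      (.app _ _ _ _ (.app _ _ _ _ g1 h2) (.app _ _ _ _ g2 h2))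
  | h1 p q =>
    intro s a j
    refine step_key (.h1 p q) (fun a1 a2 h1 h2 => ?_)
      (fun i s a e _ np => (np _ _ .refl).elim) j rfl
    have g := Rs_left a2 (inv_atom h1 (fun _ _ h => by cases h))
    rcases inv_pair h2 with ⟨_, u, w, k, k1, _⟩ | ⟨k1, _⟩
    · exact J_lfts ((g.trans (Rs_right _ k)).tail (R_1 _ _)) k1
    · exact J_lfts g (J_intern1 k1)
  | h2 p q =>
    intro s a j
    refine step_key (.h2 p q) (fun a1 a2 h1 h2 => ?_)
      (fun i s a e _ np => (np _ _ .refl).elim) j rfl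
    have g := Rs_left a2 (inv_atom h1 (fun _ _ h => by cases h))
    rcases inv_pair h2 with ⟨_, u, w, k, _, k2⟩ | ⟨_, k2⟩
    · exact J_lfts ((g.trans (Rs_right _ k)).tail (R_2 _ _)) k2
    · exact J_lfts g (J_intern1 k2)
  | hL b b' w r ih =>
    intro s a j
    refine step_key (.hL _ _ w r) (fun a1 a2 h1 h2 => .app _ _ _ _ (ih _ _ h1) h2)
      (fun i s a e => ?_) j rfl
    subst e
    exact (noH_P r).elim
  | hR i b b' r ih =>
    intro s a j
    refine step_key (.hR i _ _ r) (fun a1 a2 h1 h2 => .app _ _ _ _ h1 (ih _ _ h2))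
      (fun i s a e h np => ?_) j rfl
    cases e
    exact .strip _ _ _ _ (ih _ _ h) (np_hs np (.single r))
  | hA p q w f hf r ih =>
    intro s a j
    exact step_key (.hA p q w f hf r) (fun a1 a2 h1 h2 => .app _ _ _ _ (ih _ _ h1) h2)
      (fun i s a e => by cases e) j rfl
  | vR v => exact fun _ _ j => j
  | vS b c v _ _ ih1 ih2 => exact fun s a j => ih2 _ _ (ih1 _ _ j)
  | vP p q v v' _ _ e hv hv' ih1 ih2 =>
    intro s a j
    refine sp_np (np_vl hv) (np_vl hv') e ?_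
    rcases inv_pair j with ⟨e, u, w, k, k1, k2⟩ | ⟨k1, _⟩
    · exact Or.inl ⟨e, u, w, k, ih1 _ _ k1, ih2 _ _ k2⟩
    · exact Or.inr (ih1 _ _ k1)

theorem J_hs {s : List Bool} {a b c : Tm} (h : Hs b c) (j : J s a b) : J s a c := by
  induction h with
  | refl => exact j
  | tail _ r ih => exact J_hv r _ _ ih

theorem sp_fwd {s : List Bool} {a z : Tm}
    (j : J s a (app (app D (app (P true) z)) (app (P false) z))) : J s a z := by
  by_cases np : NP z
  · refine sp_np np np (Q.refl z) ?_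
    rcases inv_pair j with h | ⟨k1, _⟩
    · exact Or.inl h
    · exact Or.inr k1
  · simp only [NP, not_forall, not_not] at np
    obtain ⟨z1, z2, g⟩ := np
    have g1 : Hs (app (P true) z) z1 := (Hs_proj _ g).tail (.h1 _ _)
    have g2 : Hs (app (P false) z) z2 := (Hs_proj _ g).tail (.h2 _ _)
    refine J_hds g ?_
    rcases inv_pair j with ⟨rfl, u, w, k, k1, k2⟩ | ⟨k1, k2⟩
    · exact J_lfts k (.app _ _ _ _ (.app _ _ _ _ (J_refl D) (J_hs g1 k1)) (J_hs g2 k2))
    · exact .sp _ _ _ _ (J_hs g1 k1) (J_hs g2 k2)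

theorem sp_bwd {s : List Bool} {a z : Tm} (j : J s a z) :
    J s a (app (app D (app (P true) z)) (app (P false) z)) := by
  by_cases np : NP z
  · exact .sp _ _ _ _ (.strip _ _ _ _ j np) (.strip _ _ _ _ j np)
  · simp only [NP, not_forall, not_not] at np
    obtain ⟨z1, z2, g⟩ := np
    have g1 : Hs (app (P true) z) z1 := (Hs_proj _ g).tail (.h1 _ _)
    have g2 : Hs (app (P false) z) z2 := (Hs_proj _ g).tail (.h2 _ _)
    rcases inv_pair (J_hs g j) with ⟨rfl, u, w, k, k1, k2⟩ | ⟨k1, k2⟩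
    · exact J_lfts k (.app _ _ _ _ (.app _ _ _ _ (J_refl D) (J_hds g1 k1)) (J_hds g2 k2))
    · exact .sp _ _ _ _ (J_hds g1 k1) (J_hds g2 k2)

theorem pr_cases_fwd {t a b : Tm} (h : Pr (app a b) t) :
    Hs (app a b) t ∨ (∃ z, app a b = app (app D (app (P true) z)) (app (P false) z) ∧ Hs z t) ∨
      ∃ a' b', t = app a' b' ∧ Pr a a' ∧ Pr b b' := by
  generalize e : app a b = u at h
  cases h with
  | hs _ _ h => exact Or.inl h
  | node z _ h => exact Or.inr (Or.inl ⟨z, rfl, h⟩)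
  | app d d' q' q'' h1 h2 =>
    cases e
    exact Or.inr (Or.inr ⟨_, _, rfl, h1, h2⟩)

theorem J_fwd {s : List Bool} {a b : Tm} (j : J s a b) : ∀ b', Pr b b' → J s a b' := by
  have key : ∀ {s : List Bool} {a b1 b2 : Tm}, J s a (app b1 b2) →
      (∀ c1 c2, Pr b1 c1 → Pr b2 c2 → J s a (app c1 c2)) → ∀ t, Pr (app b1 b2) t → J s a t := by
    intro s a b1 b2 j hk t p
    rcases pr_cases_fwd p with h | ⟨z, e, h⟩ | ⟨c1, c2, rfl, p1, p2⟩
    · exact J_hs h j
    · rw [e] at j
      exact J_hs h (sp_fwd j)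
    · exact hk _ _ p1 p2
  induction j with
  | atom c h =>
    intro b' p
    cases p with
    | hs _ _ g => exact J_hs g (.atom c h)
    | node => exact (h _ _ rfl).elim
    | app => exact (h _ _ rfl).elim
  | app a1 a2 b1 b2 h1 h2 ih1 ih2 =>
    exact key (.app _ _ _ _ h1 h2) fun c1 c2 p1 p2 => .app _ _ _ _ (ih1 _ p1) (ih2 _ p2)
  | lft s a a' b r _ ih => exact fun b' p => .lft _ _ _ _ r (ih _ p)
  | hd s a b c r _ ih =>
    intro b' p
    obtain ⟨c', q1, q2, _⟩ := fwd_comm r _ p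
    exact J_hds (q2 rfl) (ih _ q1)
  | strip i s a x h np ih =>
    refine key (.strip _ _ _ _ h np) fun c1 c2 p1 p2 => ?_
    rw [pr_P p1]
    exact .strip _ _ _ _ (ih _ p2) (np_pr np p2)
  | sp s a p q h1 h2 ih1 ih2 =>
    refine key (.sp _ _ _ _ h1 h2) fun c1 c2 p1 p2 => ?_
    obtain ⟨p', rfl, pp⟩ := pr_D1 p1
    exact .sp _ _ _ _ (ih1 _ pp) (ih2 _ p2)

theorem J_bwd {s : List Bool} {a b : Tm} (j : J s a b) : ∀ b', Pr b' b → J s a b' := by
  have key : ∀ {s : List Bool} {a b1 b2 : Tm}, J s a (app b1 b2) →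
      (∀ c1 c2, Pr c1 b1 → Pr c2 b2 → J s a (app c1 c2)) → ∀ t, Pr t (app b1 b2) → J s a t := by
    intro s a b1 b2 j hk t p
    rcases pr_cases p with h | ⟨z, rfl, h⟩ | ⟨c1, c2, rfl, p1, p2⟩
    · exact J_hds h j
    · exact sp_bwd (J_hds h j)
    · exact hk _ _ p1 p2
  induction j with
  | atom c h =>
    intro b' p
    cases p with
    | hs _ _ g => exact J_hds g (.atom c h)
    | node _ _ g => exact sp_bwd (J_hds g (.atom c h))
    | app => exact (h _ _ rfl).elim
  | app a1 a2 b1 b2 h1 h2 ih1 ih2 =>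
    exact key (.app _ _ _ _ h1 h2) fun c1 c2 p1 p2 => .app _ _ _ _ (ih1 _ p1) (ih2 _ p2)
  | lft s a a' b r _ ih => exact fun b' p => .lft _ _ _ _ r (ih _ p)
  | hd s a b c r _ ih =>
    intro b' p
    obtain ⟨c', q1, q2⟩ := (bwd_comm r _ p).1 rfl
    exact J_hds q1 (ih _ q2)
  | strip i s a x h np ih =>
    refine key (.strip _ _ _ _ h np) fun c1 x' p1 p2 => ?_
    refine J_hds (pv_P p1 x') ?_
    by_cases np' : NP x'
    · exact .strip _ _ _ _ (ih _ p2) np'
    · simp only [NP, not_forall, not_not] at np'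
      obtain ⟨z1, z2, g⟩ := np'
      obtain ⟨c', q1, q2⟩ := fwd_comms g p2
      rcases pr_pair q1 with ⟨p', q', rfl, _⟩ | ⟨z, rfl, rfl, hz⟩
      · exact (np _ _ q2).elim
      · have jz : J (i :: s) a (app (P i) z) :=
          .strip _ _ _ _ (J_hds hz (J_hs q2 h)) (np_hs_bwd (np_hs np q2) hz)
        refine J_hds (Hs_proj i g) ?_
        cases i with
        | true => exact .hd _ _ _ _ (.h1 _ _) jz
        | false => exact .hd _ _ _ _ (.h2 _ _) jz
  | sp s a p q h1 h2 ih1 ih2 =>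
    refine key (.sp _ _ _ _ h1 h2) fun c1 c2 p1 p2 => ?_
    obtain ⟨f', sh, g⟩ := pv_fn p1 (.d1 p) c2
    obtain ⟨p', rfl, pp⟩ := sh_D1 sh
    exact J_hds g (.sp _ _ _ _ (ih1 _ pp) (ih2 _ p2))

def PE (a b : Tm) : Prop := EqvGen Pr a b

theorem PE_left {a a' : Tm} (b : Tm) (h : PE a a') : PE (app a b) (app a' b) := by
  induction h with
  | rel x y h => exact EqvGen.rel _ _ (.app _ _ _ _ h (.refl b))
  | refl x => exact EqvGen.refl _
  | symm _ _ _ ih => exact EqvGen.symm _ _ ih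
  | trans _ _ _ _ _ ih1 ih2 => exact EqvGen.trans _ _ _ ih1 ih2

theorem PE_right (a : Tm) {b b' : Tm} (h : PE b b') : PE (app a b) (app a b') := by
  induction h with
  | rel x y h => exact EqvGen.rel _ _ (.app _ _ _ _ (.refl a) h)
  | refl x => exact EqvGen.refl _
  | symm _ _ _ ih => exact EqvGen.symm _ _ ih
  | trans _ _ _ _ _ ih1 ih2 => exact EqvGen.trans _ _ _ ih1 ih2

theorem step_PE {E : Tm → Tm → Prop} (hE : ∀ x y, E x y → PE x y) {a b : Tm} (s : Step E a b) :
    PE a b := by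
  induction s with
  | rule1 x => exact EqvGen.rel _ _ (.hs _ _ (.single (.hI x)))
  | rule2 x y => exact EqvGen.rel _ _ (.hs _ _ (.single (.hK x y)))
  | rule3 x y z => exact EqvGen.rel _ _ (.hs _ _ (.single (.hS x y z)))
  | rule4 x y => exact EqvGen.rel _ _ (.hs _ _ (.single (.h1 x y)))
  | rule5 x y => exact EqvGen.rel _ _ (.hs _ _ (.single (.h2 x y)))
  | rule6 x y e =>
    exact EqvGen.trans _ _ _ (PE_right _ (PE_right _ (EqvGen.symm _ _ (hE _ _ e))))
      (EqvGen.rel _ _ (.node x x .refl))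
  | rule7 x y e =>
    exact EqvGen.trans _ _ _ (PE_left _ (PE_right _ (PE_right _ (hE _ _ e))))
      (EqvGen.rel _ _ (.node y y .refl))
  | left a a' b _ ih => exact PE_left b ih
  | right a b b' _ ih => exact PE_right a ih

theorem lev_PE : ∀ n x y, EqvGen (lev n) x y → PE x y := by
  intro n
  induction n with
  | zero =>
    intro x y h
    induction h with
    | rel a b h => exact h.elim
    | refl => exact EqvGen.refl _
    | symm _ _ _ ih => exact EqvGen.symm _ _ ih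
    | trans _ _ _ _ _ ih1 ih2 => exact EqvGen.trans _ _ _ ih1 ih2
  | succ n ihn =>
    intro x y h
    induction h with
    | rel a b h => exact step_PE ihn h
    | refl => exact EqvGen.refl _
    | symm _ _ _ ih => exact EqvGen.symm _ _ ih
    | trans _ _ _ _ _ ih1 ih2 => exact EqvGen.trans _ _ _ ih1 ih2

theorem PE_J {x y : Tm} (h : PE x y) (a : Tm) : J [] a x ↔ J [] a y := by
  induction h with
  | rel x y h => exact ⟨fun j => J_fwd j _ h, fun j => J_bwd j _ h⟩
  | refl x => rfl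
  | symm _ _ _ ih => exact ih.symm
  | trans _ _ _ _ _ ih1 ih2 => exact ih1.trans ih2

theorem church_rosser {a b : Tm} (h : Q a b) : ∃ u, Rs a u ∧ Rs b u := by
  obtain ⟨n, h⟩ := Q_lev h
  exact J_sound ((PE_J (lev_PE n _ _ h) a).1 (J_refl a))

end Pool.Agent.H.MP_a981ee_lc
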