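import Mathlib

namespace Pool.Agent.H.MP_a981ee_lc

open Relation

/-- applicative terms; `P true` is the first projection and `P false` the second -/
inductive Tm : Type
  | var : ℕ → Tm
  | I : Tm
  | K : Tm
  | S : Tm
  | D : Tm
  | P : Bool → Tm
  | app : Tm → Tm → Tm

open Tm

/-- one rewrite step in any context, the conditions of rules 6 and 7 being read in `E` -/
inductive Step (E : Tm → Tm → Prop) : Tm → Tm → Prop
  | rule1 (x) : Step E (app I x) x
  | rule2 (x y) : Step E (app (app K x) y) x
  | rule3 (x y z) : Step E (app (app (app S x) y) z) (app (app x z) (app y z))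
  | rule4 (x y) : Step E (app (P true) (app (app D x) y)) x
  | rule5 (x y) : Step E (app (P false) (app (app D x) y)) y
  | rule6 (x y) : E x y → Step E (app (app D (app (P true) x)) (app (P false) y)) x
  | rule7 (x y) : E x y → Step E (app (app D (app (P true) x)) (app (P false) y)) y
  | left (a a' b) : Step E a a' → Step E (app a b) (app a' b)
  | right (a b b') : Step E b b' → Step E (app a b) (app a b')

/-- the stratified rewrite relations -/
def lev : ℕ → Tm → Tm → Prop
  | 0 => fun _ _ => False
  | n + 1 => Step (EqvGen (lev n))

/-- the rewrite relation of the system -/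
def R (a b : Tm) : Prop := ∃ n, lev n a b

end Pool.Agent.H.MP_a981ee_lc
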